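import Mathlib

/-!
# The `π`-adic complexity of finite sequences: definitions
-/

set_option autoImplicit false

namespace Q224.PiAdic

/-- The infinite sequence `b` over the digits `0, …, N - 1` is the output of an algebraic feedback
shift register with connection element `g` (which is invertible modulo `p`) whose associated
`p`-adic number is `f / g`; that is, `g * ∑ b_i p^i = f` in the ring `lim R / p^m` of `p`-adic
numbers: `g * ∑_{i < m} b_i p^i ≡ f mod p^m` for all `m`. -/
def IsOutput {R : Type*} [CommRing R] (p : R) {N : ℕ} (b : ℕ → Fin N) (f g : R) : Prop :=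
  IsCoprime g p ∧
    ∀ m : ℕ, p ^ m ∣ f - g * ∑ i ∈ Finset.range m, ((b i : ℕ) : R) * p ^ i

/-- The sizes `max(φ(f), φ(g))` of the shift registers whose first `n` outputs are `a`. -/
def sizes {R : Type*} [CommRing R] (p : R) (φ : R → ℝ) {N n : ℕ} (a : Fin n → Fin N) : Set ℝ :=
  {x | ∃ b : ℕ → Fin N, (∀ i : Fin n, b i = a i) ∧
    ∃ f g : R, IsOutput p b f g ∧ x = max (φ f) (φ g)}

/-- The `p`-adic complexity of the finite sequence `a`: the least size of a shift register whose
first `n` outputs are `a`. -/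
noncomputable def finComplexity {R : Type*} [CommRing R] (p : R) (φ : R → ℝ) {N n : ℕ}
    (a : Fin n → Fin N) : ℝ :=
  sInf (sizes p φ a)

/-- `E_n^fin`: the average of the `p`-adic complexity over the `N ^ n` sequences of length `n`. -/
noncomputable def avgFin {R : Type*} [CommRing R] (p : R) (φ : R → ℝ) (N n : ℕ) : ℝ :=
  (∑ a : Fin n → Fin N, finComplexity p φ a) / (N : ℝ) ^ n

/-- Case (i), where `1, p` is a `ℤ`-basis and `p ^ 2 = -N`:
`φ(u + v p) = log_N (u ^ 2 + N v ^ 2)`. -/
noncomputable def phiImag {R : Type*} [CommRing R] (N : ℕ) (B : Module.Basis (Fin 2) ℤ R)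
    (x : R) : ℝ :=
  Real.logb N (((B.repr x 0) ^ 2 + N * (B.repr x 1) ^ 2 : ℤ) : ℝ)

/-- Case (ii), where `1, p, …, p ^ (d - 1)` is a `ℤ`-basis and `p ^ d = N`:
`φ(∑ u_i p^i) = max_i (d log_N |u_i| + i)`, the maximum over `i` with `u_i ≠ 0`. -/
noncomputable def phiReal {R : Type*} [CommRing R] (N : ℕ) {d : ℕ} (B : Module.Basis (Fin d) ℤ R)
    (x : R) : ℝ :=
  sSup {y | ∃ i : Fin d, B.repr x i ≠ 0 ∧ y = d * Real.logb N (|B.repr x i| : ℤ) + i}

end Q224.PiAdic
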