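import Pool.Agent.Q224.PiAdic.Norm
import Pool.Agent.Q224.PiAdic.Defs

/-!
# Digit expansions
-/

set_option autoImplicit false

namespace Q224.PiAdic

open Finset

/-- The standing assumptions: `1, p, …, p ^ (D - 1)` is a basis, and `p ^ D = ± N`. -/
structure Setup {R : Type*} [CommRing R] (N D : ℕ) (B : Module.Basis (Fin D) ℤ R) (p : R) : Prop where
  two_le : 2 ≤ N
  one_le : 1 ≤ D
  basis_eq : ∀ i, B i = p ^ (i : ℕ)
  pow_eq : p ^ D = (N : R) ∨ p ^ D = -(N : R)

variable {R : Type*} [CommRing R] {N D : ℕ} {B : Module.Basis (Fin D) ℤ R} {p : R}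

/-- The number with digits `a`. -/
def num (p : R) {n : ℕ} (a : Fin n → Fin N) : R := ∑ i : Fin n, ((a i : ℕ) : R) * p ^ (i : ℕ)

theorem num_succ (p : R) {n : ℕ} (a : Fin (n + 1) → Fin N) :
    num p a = ((a 0 : ℕ) : R) + p * num p (fun i => a i.succ) := by
  rw [num, Fin.sum_univ_succ, num, Finset.mul_sum]
  simp only [Fin.val_zero, pow_zero, mul_one, Fin.val_succ]
  congr 1
  refine Finset.sum_congr rfl fun i _ => ?_
  ring

namespace Setup

theorem p_dvd_N (h : Setup N D B p) : p ∣ (N : R) := by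
  have h1 : p ∣ p ^ D := dvd_pow_self p (by have := h.one_le; omega)
  rcases h.pow_eq with h2 | h2
  · rwa [h2] at h1
  · rw [h2] at h1
    exact (dvd_neg).mp h1

theorem N_smul (h : Setup N D B p) : ∃ e : R, p ^ D = e * N ∧ (e = 1 ∨ e = -1) := by
  rcases h.pow_eq with h2 | h2
  · exact ⟨1, by rw [h2, one_mul], Or.inl rfl⟩
  · exact ⟨-1, by rw [h2]; ring, Or.inr rfl⟩

theorem N_ne_zero (h : Setup N D B p) : N ≠ 0 := by have := h.two_le; omega

/-- multiplication by `N` is injective -/
theorem N_mul_eq_zero (h : Setup N D B p) {x : R} (hx : (N : R) * x = 0) : x = 0 := by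
  have h1 : (N : ℤ) • x = 0 := by rw [zsmul_eq_mul]; push_cast; exact hx
  have h2 := nrm_zsmul B (N : ℤ) x
  rw [h1, nrm_zero] at h2
  have h3 : nrm B x = 0 := by
    have := h.N_ne_zero
    rcases Nat.mul_eq_zero.mp h2.symm with h3 | h3
    · rw [Int.natAbs_natCast] at h3; exact absurd h3 this
    · exact h3
  exact (nrm_eq_zero B).mp h3

theorem p_mul_eq_zero (h : Setup N D B p) {x : R} (hx : p * x = 0) : x = 0 := by
  apply h.N_mul_eq_zero
  obtain ⟨c, hc⟩ := h.p_dvd_N
  rw [hc, mul_right_comm, hx, zero_mul]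

theorem pow_mul_eq_zero (h : Setup N D B p) (n : ℕ) {x : R} (hx : p ^ n * x = 0) : x = 0 := by
  induction n with
  | zero => simpa using hx
  | succ n ih =>
    rw [pow_succ, mul_assoc] at hx
    apply h.p_mul_eq_zero
    -- `p ^ n * (p * x) = 0`
    have key : ∀ (k : ℕ) (y : R), p ^ k * y = 0 → y = 0 := by
      intro k
      induction k with
      | zero => intro y hy; simpa using hy
      | succ k ihk =>
        intro y hy
        rw [pow_succ, mul_assoc] at hy
        exact h.p_mul_eq_zero (ihk _ hy)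
    exact key n _ hx

theorem repr_zero_p_mul (h : Setup N D B p) (y : R) (i0 : Fin D) (hi0 : (i0 : ℕ) = 0) :
    (N : ℤ) ∣ B.repr (p * y) i0 := by
  have e : p * y = ∑ i, B.repr y i • (p * B i) := by
    conv_lhs => rw [← B.sum_repr y]
    rw [Finset.mul_sum]
    refine Finset.sum_congr rfl fun i _ => ?_
    rw [mul_smul_comm]
  rw [e, map_sum, Finsupp.finsetSum_apply]
  apply Finset.dvd_sum
  intro i _
  rw [map_smul, Finsupp.smul_apply, smul_eq_mul]
  apply Dvd.dvd.mul_left
  rw [h.basis_eq, ← pow_succ']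
  by_cases hi : (i : ℕ) + 1 < D
  · have e2 : p ^ ((i : ℕ) + 1) = B ⟨(i : ℕ) + 1, hi⟩ := by rw [h.basis_eq]
    rw [e2, B.repr_self, Finsupp.single_apply, if_neg]
    · exact dvd_zero _
    · intro hcon
      rw [Fin.ext_iff] at hcon
      simp only at hcon
      omega
  · have e2 : (i : ℕ) + 1 = D := by have := i.2; omega
    have e3 : B i0 = 1 := by rw [h.basis_eq, hi0, pow_zero]
    rw [e2]
    rcases h.pow_eq with h2 | h2
    · have : (N : R) = (N : ℤ) • B i0 := by rw [e3]; simp
      rw [h2, this, map_smul, Finsupp.smul_apply, B.repr_self, Finsupp.single_eq_same]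
      simp
    · have : -(N : R) = (-(N : ℤ)) • B i0 := by rw [e3]; simp
      rw [h2, this, map_smul, Finsupp.smul_apply, B.repr_self, Finsupp.single_eq_same]
      simp

theorem dvd_intCast (h : Setup N D B p) {k : ℤ} (hk : p ∣ (k : R)) : (N : ℤ) ∣ k := by
  obtain ⟨y, hy⟩ := hk
  have h1 := h.repr_zero_p_mul y ⟨0, h.one_le⟩ rfl
  rw [← hy] at h1
  have e3 : B ⟨0, h.one_le⟩ = 1 := by rw [h.basis_eq, pow_zero]
  have e : (k : R) = k • B ⟨0, h.one_le⟩ := by rw [e3]; simp
  rw [e, map_smul, Finsupp.smul_apply, B.repr_self, Finsupp.single_eq_same] at h1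
  simpa using h1

theorem exists_digit (h : Setup N D B p) (x : R) : ∃ a : Fin N, p ∣ x - ((a : ℕ) : R) := by
  have hN : 0 < N := by have := h.two_le; omega
  set i0 : Fin D := ⟨0, h.one_le⟩ with hi0
  set k := B.repr x i0 with hk
  have hk2 : 0 ≤ k % N := Int.emod_nonneg _ (by omega)
  have hk3 : k % N < N := Int.emod_lt_of_pos _ (by omega)
  refine ⟨⟨(k % N).toNat, by omega⟩, ?_⟩
  have e1 : (((k % N).toNat : ℕ) : R) = ((k % N : ℤ) : R) := by
    have : (((k % N).toNat : ℤ)) = k % N := Int.toNat_of_nonneg hk2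
    have h2 := congrArg (Int.cast : ℤ → R) this
    rwa [Int.cast_natCast] at h2
  simp only [e1]
  have e2 : x - ((k % N : ℤ) : R) = (x - (k : R)) + ((k - k % N : ℤ) : R) := by push_cast; ring
  rw [e2]
  apply dvd_add
  · have e : x - (k : R) = ∑ i ∈ univ.erase i0, B.repr x i • B i := by
      have h1 : (k : R) = B.repr x i0 • B i0 := by
        have e3 : B i0 = 1 := by rw [h.basis_eq, hi0, pow_zero]
        rw [e3, hk]; simp
      have h2 := Finset.add_sum_erase univ (fun i => B.repr x i • B i) (Finset.mem_univ i0)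
      rw [B.sum_repr] at h2
      rw [h1]
      exact sub_eq_of_eq_add' h2.symm
    rw [e]
    apply Finset.dvd_sum
    intro i hi
    rw [Finset.mem_erase] at hi
    rw [zsmul_eq_mul]
    apply Dvd.dvd.mul_left
    rw [h.basis_eq]
    apply dvd_pow_self
    intro hcon
    exact hi.1 (Fin.ext hcon)
  · have : (N : ℤ) ∣ k - k % N := Int.dvd_self_sub_emod
    obtain ⟨c, hc⟩ := this
    rw [hc]
    push_cast
    exact Dvd.dvd.mul_right h.p_dvd_N _

theorem digit_unique (h : Setup N D B p) {a a' : Fin N} (hd : p ∣ ((a : ℕ) : R) - ((a' : ℕ) : R)) :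
    a = a' := by
  have h1 : p ∣ (((a : ℕ) - (a' : ℕ) : ℤ) : R) := by push_cast; exact hd
  have h2 := h.dvd_intCast h1
  have h3 := Int.eq_zero_of_abs_lt_dvd h2 (by rw [abs_lt]; constructor <;> omega)
  apply Fin.ext
  omega

theorem not_isUnit (h : Setup N D B p) : ¬ p ∣ 1 := by
  intro hd
  have h1 : p ∣ ((1 : ℤ) : R) := by simpa using hd
  have h2 := h.dvd_intCast h1
  have h3 := Int.le_of_dvd one_pos h2
  have := h.two_le
  omega

theorem eq_of_dvd (h : Setup N D B p) {n : ℕ} {a a' : Fin n → Fin N}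
    (hd : p ^ n ∣ num p a - num p a') : a = a' := by
  induction n with
  | zero => exact Subsingleton.elim _ _
  | succ n ih =>
    rw [num_succ, num_succ] at hd
    have e : ((a 0 : ℕ) : R) + p * num p (fun i => a i.succ) -
        (((a' 0 : ℕ) : R) + p * num p (fun i => a' i.succ)) =
        (((a 0 : ℕ) : R) - ((a' 0 : ℕ) : R)) +
          p * (num p (fun i => a i.succ) - num p (fun i => a' i.succ)) := by ring
    rw [e] at hd
    have h1 : p ∣ ((a 0 : ℕ) : R) - ((a' 0 : ℕ) : R) := by
      have h2 : p ∣ (((a 0 : ℕ) : R) - ((a' 0 : ℕ) : R)) +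
          p * (num p (fun i => a i.succ) - num p (fun i => a' i.succ)) :=
        (dvd_pow_self p (Nat.succ_ne_zero n)).trans hd
      exact (dvd_add_left (dvd_mul_right p _)).mp h2
    have h2 := h.digit_unique h1
    rw [h2, sub_self, zero_add, pow_succ'] at hd
    obtain ⟨c, hc⟩ := hd
    have h3 : p * ((num p (fun i => a i.succ) - num p (fun i => a' i.succ)) - p ^ n * c) = 0 := by
      rw [mul_sub, hc]; ring
    have h4 := h.p_mul_eq_zero h3
    have h5 := ih (a := fun i => a i.succ) (a' := fun i => a' i.succ) ⟨c, sub_eq_zero.mp h4⟩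
    funext i
    refine Fin.cases h2 (fun j => ?_) i
    exact congrFun h5 j

theorem exists_num (h : Setup N D B p) (n : ℕ) (x : R) :
    ∃ a : Fin n → Fin N, p ^ n ∣ x - num p a := by
  induction n generalizing x with
  | zero => exact ⟨fun i => i.elim0, by simp⟩
  | succ n ih =>
    obtain ⟨a0, y, hy⟩ := h.exists_digit x
    obtain ⟨a, z, hz⟩ := ih y
    refine ⟨Fin.cons a0 a, z, ?_⟩
    rw [num_succ]
    simp only [Fin.cons_zero, Fin.cons_succ]
    have e : x = p * y + ((a0 : ℕ) : R) := by rw [← hy]; ring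
    have e2 : y = p ^ n * z + num p a := by rw [← hz]; ring
    rw [e]
    nth_rewrite 1 [e2]
    ring

end Setup

theorem num_restrict (p : R) {n : ℕ} (b : ℕ → Fin N) :
    num p (fun i : Fin n => b i) = ∑ i ∈ range n, ((b i : ℕ) : R) * p ^ i := by
  rw [num, Finset.sum_range]

namespace Setup

theorem exists_expansion (h : Setup N D B p) {f g : R} (hg : IsCoprime g p) :
    ∃ b : ℕ → Fin N, ∀ m : ℕ, p ^ m ∣ f - g * ∑ i ∈ range m, ((b i : ℕ) : R) * p ^ i := by
  obtain ⟨u, v, huv⟩ := hg
  have step : ∀ s : R, ∃ (a : Fin N) (y : R), s - g * ((a : ℕ) : R) = p * y := by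
    intro s
    obtain ⟨a, c, hc⟩ := h.exists_digit (u * s)
    refine ⟨a, v * s + g * c, ?_⟩
    have e : ((a : ℕ) : R) = u * s - p * c := by rw [← hc]; ring
    rw [e]
    linear_combination (-s) * huv
  choose a y hay using step
  let st : ℕ → R := fun k => Nat.rec f (fun _ s => y s) k
  have hst : ∀ k, st (k + 1) = y (st k) := fun k => rfl
  refine ⟨fun k => a (st k), fun m => ⟨st m, ?_⟩⟩
  induction m with
  | zero => simp [st]
  | succ m ih =>
    rw [Finset.sum_range_succ, mul_add, ← sub_sub, ih, hst, pow_succ, mul_assoc, ← hay]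
    ring

theorem exists_extension (h : Setup N D B p) {n : ℕ} (a : Fin n → Fin N) {f g : R}
    (hg : IsCoprime g p) (hd : p ^ n ∣ f - g * num p a) :
    ∃ b : ℕ → Fin N, (∀ i : Fin n, b i = a i) ∧ IsOutput p b f g := by
  obtain ⟨b, hb⟩ := h.exists_expansion (f := f) hg
  refine ⟨b, ?_, hg, hb⟩
  have h1 := hb n
  rw [← num_restrict] at h1
  have h2 : p ^ n ∣ g * (num p (fun i : Fin n => b i) - num p a) := by
    have := dvd_sub hd h1
    have e : f - g * num p a - (f - g * num p fun i : Fin n => b i) =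
      g * ((num p fun i : Fin n => b i) - num p a) := by ring
    rwa [e] at this
  have h3 := (hg.symm.pow_left).dvd_of_dvd_mul_left h2
  have h4 := h.eq_of_dvd h3
  intro i
  exact congrFun h4 i

theorem sizes_eq (h : Setup N D B p) (φ : R → ℝ) {n : ℕ} (a : Fin n → Fin N) :
    sizes p φ a = {x | ∃ f g : R, IsCoprime g p ∧ p ^ n ∣ f - g * num p a ∧
      x = max (φ f) (φ g)} := by
  ext x
  constructor
  · rintro ⟨b, hb, f, g, ⟨hg, hv⟩, rfl⟩
    refine ⟨f, g, hg, ?_, rfl⟩
    have := hv n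
    rw [← num_restrict] at this
    have e : (fun i : Fin n => b i) = a := funext hb
    rwa [e] at this
  · rintro ⟨f, g, hg, hd, rfl⟩
    obtain ⟨b, hb, ho⟩ := h.exists_extension a hg hd
    exact ⟨b, hb, f, g, ho, rfl⟩

end Setup

end Q224.PiAdic
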