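import Pool.Agent.Q224.PiAdic.Digits
import Pool.Agent.Q224.NAdic.LogSum

/-!
# The least norm of a fraction, and the lower bound
-/

set_option autoImplicit false

namespace Q224.PiAdic

open Finset

variable {R : Type*} [CommRing R] {N D : ℕ} {B : Module.Basis (Fin D) ℤ R} {p : R}

/-- The values of `max (‖f‖, ‖g‖)`. -/
def Ks (B : Module.Basis (Fin D) ℤ R) (p : R) {n : ℕ} (a : Fin n → Fin N) : Set ℕ :=
  {k | ∃ f g : R, IsCoprime g p ∧ p ^ n ∣ f - g * num p a ∧ k = max (nrm B f) (nrm B g)}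

/-- The least value of `max (‖f‖, ‖g‖)`. -/
noncomputable def M (B : Module.Basis (Fin D) ℤ R) (p : R) {n : ℕ} (a : Fin n → Fin N) : ℕ :=
  sInf (Ks B p a)

theorem M_mem {n : ℕ} (a : Fin n → Fin N) : M B p a ∈ Ks B p a :=
  Nat.sInf_mem ⟨_, num p a, 1, isCoprime_one_left, by simp, rfl⟩

theorem M_le {n : ℕ} (a : Fin n → Fin N) {f g : R} (hg : IsCoprime g p)
    (hd : p ^ n ∣ f - g * num p a) : M B p a ≤ max (nrm B f) (nrm B g) :=
  Nat.sInf_le ⟨f, g, hg, hd, rfl⟩

theorem ne_zero_of_isCoprime (h : Setup N D B p) {g : R} (hg : IsCoprime g p) : g ≠ 0 := by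
  rintro rfl
  obtain ⟨u, v, huv⟩ := hg
  apply h.not_isUnit
  exact ⟨v, by rw [← huv]; ring⟩

theorem one_le_M (h : Setup N D B p) {n : ℕ} (a : Fin n → Fin N) : 1 ≤ M B p a := by
  obtain ⟨f, g, hg, -, hk⟩ := M_mem (B := B) (p := p) a
  rw [hk]
  exact le_max_of_le_right (nrm_pos B (ne_zero_of_isCoprime h hg))

section phi

variable (h : Setup N D B p) {φ : R → ℝ} {c : ℝ}
  (h1 : ∀ x, D * Real.logb N (nrm B x) ≤ φ x) (h2 : ∀ x, φ x ≤ D * Real.logb N (nrm B x) + c)

include h in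
theorem one_lt_N : (1 : ℝ) < N := by exact_mod_cast (by have := h.two_le; omega : 1 < N)

include h h1 in
theorem le_of_mem_sizes {n : ℕ} (a : Fin n → Fin N) {x : ℝ} (hx : x ∈ sizes p φ a) :
    D * Real.logb N (M B p a) ≤ x := by
  rw [h.sizes_eq] at hx
  obtain ⟨f, g, hg, hd, rfl⟩ := hx
  have h3 := M_le (B := B) a hg hd
  have hD : (0 : ℝ) ≤ D := Nat.cast_nonneg D
  have hM : (0 : ℝ) < M B p a := by exact_mod_cast one_le_M h a
  rcases le_total (nrm B f) (nrm B g) with h4 | h4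
  · rw [max_eq_right h4] at h3
    have h5 : Real.logb N (M B p a) ≤ Real.logb N (nrm B g) :=
      Real.logb_le_logb_of_le (one_lt_N h) hM (by exact_mod_cast h3)
    exact le_trans (mul_le_mul_of_nonneg_left h5 hD) ((h1 g).trans (le_max_right _ _))
  · rw [max_eq_left h4] at h3
    have h5 : Real.logb N (M B p a) ≤ Real.logb N (nrm B f) :=
      Real.logb_le_logb_of_le (one_lt_N h) hM (by exact_mod_cast h3)
    exact le_trans (mul_le_mul_of_nonneg_left h5 hD) ((h1 f).trans (le_max_left _ _))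

include h h2 in
theorem exists_mem_sizes {n : ℕ} (a : Fin n → Fin N) :
    ∃ x ∈ sizes p φ a, x ≤ D * Real.logb N (M B p a) + c := by
  obtain ⟨f, g, hg, hd, hk⟩ := M_mem (B := B) (p := p) a
  have hD : (0 : ℝ) ≤ D := Nat.cast_nonneg D
  have hM : (1 : ℝ) ≤ M B p a := by exact_mod_cast one_le_M h a
  have key : ∀ x : R, nrm B x ≤ M B p a → φ x ≤ D * Real.logb N (M B p a) + c := by
    intro x hx
    refine (h2 x).trans ?_
    have h5 : Real.logb N (nrm B x) ≤ Real.logb N (M B p a) := by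
      rcases Nat.eq_zero_or_pos (nrm B x) with h0 | h0
      · rw [h0]
        simp only [Nat.cast_zero, Real.logb_zero]
        exact Real.logb_nonneg (one_lt_N h) hM
      · exact Real.logb_le_logb_of_le (one_lt_N h) (by exact_mod_cast h0) (by exact_mod_cast hx)
    have := mul_le_mul_of_nonneg_left h5 hD
    linarith
  refine ⟨max (φ f) (φ g), ?_, max_le (key f ?_) (key g ?_)⟩
  · rw [h.sizes_eq]
    exact ⟨f, g, hg, hd, rfl⟩
  · rw [hk]; exact le_max_left _ _
  · rw [hk]; exact le_max_right _ _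

include h h1 in
theorem isLeast_sizes {n : ℕ} (a : Fin n → Fin N) :
    IsLeast (sizes p φ a) (finComplexity p φ a) := by
  have hne : (sizes p φ a).Nonempty := by
    rw [h.sizes_eq]
    exact ⟨_, num p a, 1, isCoprime_one_left, by simp, rfl⟩
  obtain ⟨x0, hx0⟩ := hne
  have hD : (0 : ℝ) < D := by exact_mod_cast h.one_le
  obtain ⟨T, hT⟩ := exists_nat_gt ((N : ℝ) ^ (x0 / D))
  have hN0 : (0 : ℝ) < N := lt_trans one_pos (one_lt_N h)
  have key : ∀ x : R, φ x ≤ x0 → x ∈ box B T := by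
    intro x hx
    rw [mem_box]
    rcases Nat.eq_zero_or_pos (nrm B x) with h0 | h0
    · omega
    · have h3 := (h1 x).trans hx
      have h4 : Real.logb N (nrm B x) ≤ x0 / D := by
        rw [le_div_iff₀ hD]; linarith
      rw [Real.logb_le_iff_le_rpow (one_lt_N h) (by exact_mod_cast h0)] at h4
      have h5 : (nrm B x : ℝ) ≤ T := h4.trans hT.le
      exact_mod_cast h5
  have hfin : (sizes p φ a ∩ Set.Iic x0).Finite := by
    apply Set.Finite.subset (Finset.finite_toSet
      ((box B T ×ˢ box B T).image fun q : R × R => max (φ q.1) (φ q.2)))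
    rintro x ⟨hx, hx'⟩
    rw [h.sizes_eq] at hx
    obtain ⟨f, g, -, -, rfl⟩ := hx
    rw [Set.mem_Iic] at hx'
    rw [Finset.mem_coe, Finset.mem_image]
    exact ⟨(f, g), Finset.mem_product.mpr ⟨key f ((le_max_left _ _).trans hx'),
      key g ((le_max_right _ _).trans hx')⟩, rfl⟩
  obtain ⟨m, hm, hm'⟩ := Set.exists_min_image _ id hfin ⟨x0, hx0, Set.mem_Iic.mpr le_rfl⟩
  have hleast : IsLeast (sizes p φ a) m := by
    refine ⟨hm.1, fun x hx => ?_⟩
    rcases le_total x x0 with h3 | h3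
    · exact hm' x ⟨hx, h3⟩
    · exact (Set.mem_Iic.mp hm.2).trans h3
  rw [finComplexity, hleast.csInf_eq]
  exact hleast

include h h1 in
theorem finComplexity_ge {n : ℕ} (a : Fin n → Fin N) :
    D * Real.logb N (M B p a) ≤ finComplexity p φ a :=
  le_of_mem_sizes h h1 a (isLeast_sizes h h1 a).1

include h h1 h2 in
theorem finComplexity_le {n : ℕ} (a : Fin n → Fin N) :
    finComplexity p φ a ≤ D * Real.logb N (M B p a) + c := by
  obtain ⟨x, hx, hx'⟩ := exists_mem_sizes h h2 a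
  exact ((isLeast_sizes h h1 a).2 hx).trans hx'

end phi

theorem card_M_le (h : Setup N D B p) (n T : ℕ) :
    ((univ : Finset (Fin n → Fin N)).filter (fun a => M B p a ≤ T)).card ≤
      ((2 * T + 1) ^ D) * ((2 * T + 1) ^ D) := by
  classical
  have hex : ∀ a : Fin n → Fin N, ∃ q : R × R, IsCoprime q.2 p ∧
      p ^ n ∣ q.1 - q.2 * num p a ∧ M B p a = max (nrm B q.1) (nrm B q.2) := by
    intro a
    obtain ⟨f, g, hg, hd, hk⟩ := M_mem (B := B) (p := p) a
    exact ⟨(f, g), hg, hd, hk⟩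
  choose q hq1 hq2 hq3 using hex
  have hinj : Set.InjOn q ((univ : Finset (Fin n → Fin N)).filter (fun a => M B p a ≤ T)) := by
    intro a _ a' _ he
    apply h.eq_of_dvd
    have h1 := hq2 a
    have h2 := hq2 a'
    rw [← he] at h2
    have h3 := dvd_sub h2 h1
    have e : (q a).1 - (q a).2 * num p a' - ((q a).1 - (q a).2 * num p a) =
      (q a).2 * (num p a - num p a') := by ring
    rw [e] at h3
    exact ((hq1 a).symm.pow_left).dvd_of_dvd_mul_left h3
  have hmaps : ∀ a ∈ (univ : Finset (Fin n → Fin N)).filter (fun a => M B p a ≤ T),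
      q a ∈ box B T ×ˢ box B T := by
    intro a ha
    rw [Finset.mem_filter] at ha
    have h1 : max (nrm B (q a).1) (nrm B (q a).2) ≤ T := by rw [← hq3]; exact ha.2
    rw [Finset.mem_product, mem_box, mem_box]
    exact ⟨(le_max_left _ _).trans h1, (le_max_right _ _).trans h1⟩
  have := Finset.card_le_card_of_injOn q hmaps hinj
  rwa [Finset.card_product, card_box] at this

theorem exists_root (q k : ℕ) (hq : 1 ≤ q) (hk : 1 ≤ k) :
    ∃ X : ℕ, 1 ≤ X ∧ X ^ k ≤ q ∧ Real.log q / k - Real.log 2 ≤ Real.log X := by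
  classical
  set X := Nat.findGreatest (fun x => x ^ k ≤ q) q with hX
  have h1 : 1 ≤ X := by
    apply Nat.le_findGreatest hq
    simpa using hq
  have h2 : X ^ k ≤ q := by
    have := Nat.findGreatest_spec (P := fun x => x ^ k ≤ q) hq (by simpa using hq)
    exact this
  have h3 : q ≤ (X + 1) ^ k := by
    by_contra hcon
    push Not at hcon
    have h4 : X + 1 ≤ q := by
      have : X + 1 ≤ (X + 1) ^ k := Nat.le_self_pow (by omega) _
      omega
    have := Nat.findGreatest_is_greatest (P := fun x => x ^ k ≤ q) (n := q) (k := X + 1)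
      (by rw [← hX]; omega) h4
    exact this hcon.le
  refine ⟨X, h1, h2, ?_⟩
  have h4 : q ≤ (2 * X) ^ k := h3.trans (Nat.pow_le_pow_left (by omega) k)
  have hX0 : (0 : ℝ) < X := by exact_mod_cast h1
  have hk0 : (0 : ℝ) < k := by exact_mod_cast hk
  have h5 : Real.log (q : ℝ) ≤ Real.log (((2 * X) ^ k : ℕ) : ℝ) :=
    Real.log_le_log (by exact_mod_cast hq) (by exact_mod_cast h4)
  push_cast at h5
  rw [Real.log_pow, Real.log_mul two_ne_zero hX0.ne'] at h5
  rw [sub_le_iff_le_add, div_le_iff₀ hk0]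
  linarith

theorem sum_pow_le (c : ℝ) (hc : 0 ≤ c) (k : ℕ) (hk : 1 ≤ k) (X : ℕ) :
    ∑ T ∈ Ico 1 X, c * (T : ℝ) ^ k / T ≤ c * (X : ℝ) ^ k := by
  obtain ⟨k, rfl⟩ := Nat.exists_eq_add_of_le' hk
  calc ∑ T ∈ Ico 1 X, c * (T : ℝ) ^ (k + 1) / T ≤ ∑ T ∈ Ico 1 X, c * (X : ℝ) ^ k := by
        apply Finset.sum_le_sum
        intro T hT
        rw [Finset.mem_Ico] at hT
        have hT0 : (0 : ℝ) < T := by exact_mod_cast hT.1
        have hTX : (T : ℝ) ≤ X := by exact_mod_cast hT.2.le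
        rw [div_le_iff₀ hT0, pow_succ, ← mul_assoc]
        apply mul_le_mul_of_nonneg_right _ hT0.le
        exact mul_le_mul_of_nonneg_left (pow_le_pow_left₀ hT0.le hTX k) hc
    _ = ((X - 1 : ℕ) : ℝ) * (c * (X : ℝ) ^ k) := by
        rw [Finset.sum_const, Nat.card_Ico, nsmul_eq_mul]
    _ ≤ (X : ℝ) * (c * (X : ℝ) ^ k) := by
        apply mul_le_mul_of_nonneg_right _ (by positivity)
        exact_mod_cast Nat.sub_le X 1
    _ = c * (X : ℝ) ^ (k + 1) := by ring

theorem sum_log_M_ge (h : Setup N D B p) (n : ℕ) :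
    (N : ℝ) ^ n * ((n : ℝ) * Real.log N / (2 * D : ℕ) - Real.log 2 - 9 ^ D) ≤
      ∑ a : Fin n → Fin N, Real.log (M B p a) := by
  have hq : 1 ≤ N ^ n := Nat.one_le_pow _ _ (by have := h.two_le; omega)
  have hD := h.one_le
  obtain ⟨X, hX1, hXq, hlog⟩ := exists_root (N ^ n) (2 * D) hq (by omega)
  have h1 := Q224.NAdic.sum_log_ge (univ : Finset (Fin n → Fin N)) (M B p)
    (fun a _ => one_le_M h a) X hX1
    (fun T => 9 ^ D * (T : ℝ) ^ (2 * D)) (by
      intro T hT
      rw [Finset.mem_Ico] at hT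
      have h2 := card_M_le h n T
      have h3 : (2 * T + 1) ^ D * (2 * T + 1) ^ D ≤ 9 ^ D * T ^ (2 * D) := by
        calc (2 * T + 1) ^ D * (2 * T + 1) ^ D ≤ (3 * T) ^ D * (3 * T) ^ D :=
              Nat.mul_le_mul (Nat.pow_le_pow_left (by omega) D) (Nat.pow_le_pow_left (by omega) D)
          _ = ((3 * T) * (3 * T)) ^ D := by rw [mul_pow (3 * T) (3 * T)]
          _ = (9 * T ^ 2) ^ D := by congr 1; ring
          _ = 9 ^ D * T ^ (2 * D) := by rw [mul_pow, ← pow_mul]
      exact_mod_cast h2.trans h3)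
  have h2 : ∑ T ∈ Ico 1 X, 9 ^ D * (T : ℝ) ^ (2 * D) / T ≤ 9 ^ D * (N : ℝ) ^ n := by
    refine (sum_pow_le (9 ^ D) (by positivity) (2 * D) (by omega) X).trans ?_
    apply mul_le_mul_of_nonneg_left _ (by positivity)
    exact_mod_cast hXq
  rw [Finset.sum_sub_distrib, Finset.sum_const, Finset.card_univ, Fintype.card_fun,
    Fintype.card_fin, Fintype.card_fin, nsmul_eq_mul] at h1
  have hlog2 : Real.log ((N ^ n : ℕ) : ℝ) = n * Real.log N := by
    push_cast
    rw [Real.log_pow]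
  rw [hlog2] at hlog
  have hq' : (0 : ℝ) ≤ (N : ℝ) ^ n := by positivity
  have h3 := mul_le_mul_of_nonneg_left hlog hq'
  push_cast at h1 h3 ⊢
  nlinarith

end Q224.PiAdic
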