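import Mathlib

/-!
# The maximum norm of the coordinates
-/

set_option autoImplicit false

namespace Q224.PiAdic

open Finset

variable {R : Type*} [CommRing R] {D : ℕ} (B : Module.Basis (Fin D) ℤ R)

/-- The maximum of the absolute values of the coordinates. -/
noncomputable def nrm (x : R) : ℕ := univ.sup fun i => (B.repr x i).natAbs

theorem nrm_le_iff {x : R} {k : ℕ} : nrm B x ≤ k ↔ ∀ i, (B.repr x i).natAbs ≤ k := by
  simp [nrm, Finset.sup_le_iff]

theorem natAbs_le_nrm (x : R) (i : Fin D) : (B.repr x i).natAbs ≤ nrm B x :=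
  (nrm_le_iff B).mp le_rfl i

theorem nrm_add_le (x y : R) : nrm B (x + y) ≤ nrm B x + nrm B y := by
  rw [nrm_le_iff]
  intro i
  rw [map_add, Finsupp.add_apply]
  exact (Int.natAbs_add_le _ _).trans (add_le_add (natAbs_le_nrm B x i) (natAbs_le_nrm B y i))

theorem nrm_neg (x : R) : nrm B (-x) = nrm B x := by
  simp [nrm]

theorem nrm_zero : nrm B 0 = 0 := by
  have : nrm B 0 ≤ 0 := by rw [nrm_le_iff]; simp
  omega

theorem nrm_sub_le (x y : R) : nrm B (x - y) ≤ nrm B x + nrm B y := by
  rw [sub_eq_add_neg]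
  have := nrm_add_le B x (-y)
  rwa [nrm_neg] at this

theorem nrm_eq_zero {x : R} : nrm B x = 0 ↔ x = 0 := by
  constructor
  · intro h
    have h1 : nrm B x ≤ 0 := by omega
    rw [nrm_le_iff] at h1
    apply B.repr.injective
    ext i
    have := h1 i
    rw [map_zero, Finsupp.zero_apply]
    omega
  · rintro rfl
    exact nrm_zero B

theorem nrm_pos {x : R} (h : x ≠ 0) : 1 ≤ nrm B x := by
  have := mt (nrm_eq_zero B).mp h
  omega

theorem nrm_zsmul (k : ℤ) (x : R) : nrm B (k • x) = k.natAbs * nrm B x := by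
  apply le_antisymm
  · rw [nrm_le_iff]
    intro i
    rw [map_smul, Finsupp.smul_apply, smul_eq_mul, Int.natAbs_mul]
    exact Nat.mul_le_mul_left _ (natAbs_le_nrm B x i)
  · rcases Nat.eq_zero_or_pos k.natAbs with h | h
    · rw [h]; simp
    · rw [mul_comm, ← Nat.le_div_iff_mul_le h, nrm_le_iff]
      intro i
      rw [Nat.le_div_iff_mul_le h, mul_comm, ← Int.natAbs_mul]
      have := natAbs_le_nrm B (k • x) i
      rwa [map_smul, Finsupp.smul_apply, smul_eq_mul] at this

theorem nrm_sum_le {ι : Type*} (s : Finset ι) (f : ι → R) :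
    nrm B (∑ i ∈ s, f i) ≤ ∑ i ∈ s, nrm B (f i) := by
  classical
  induction s using Finset.induction_on with
  | empty => simp [nrm_zero]
  | insert a s ha ih =>
    rw [Finset.sum_insert ha, Finset.sum_insert ha]
    exact (nrm_add_le B _ _).trans (Nat.add_le_add_left ih _)

theorem exists_mul_bound :
    ∃ K : ℕ, 1 ≤ K ∧ ∀ x y : R, nrm B (x * y) ≤ K * nrm B x * nrm B y := by
  refine ⟨1 + ∑ i, ∑ j, nrm B (B i * B j), by omega, ?_⟩
  intro x y
  have e : x * y = ∑ i, ∑ j, (B.repr x i * B.repr y j) • (B i * B j) := by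
    conv_lhs => rw [← B.sum_repr x, ← B.sum_repr y]
    rw [Finset.sum_mul]
    refine Finset.sum_congr rfl fun i _ => ?_
    rw [Finset.mul_sum]
    refine Finset.sum_congr rfl fun j _ => ?_
    rw [smul_mul_smul_comm]
  rw [e]
  calc nrm B (∑ i, ∑ j, (B.repr x i * B.repr y j) • (B i * B j))
      ≤ ∑ i, nrm B (∑ j, (B.repr x i * B.repr y j) • (B i * B j)) := nrm_sum_le B _ _
    _ ≤ ∑ i, ∑ j, nrm B ((B.repr x i * B.repr y j) • (B i * B j)) :=
        Finset.sum_le_sum fun i _ => nrm_sum_le B _ _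
    _ ≤ ∑ i, ∑ j, (nrm B x * nrm B y) * nrm B (B i * B j) := by
        refine Finset.sum_le_sum fun i _ => Finset.sum_le_sum fun j _ => ?_
        rw [nrm_zsmul, Int.natAbs_mul]
        exact Nat.mul_le_mul_right _
          (Nat.mul_le_mul (natAbs_le_nrm B x i) (natAbs_le_nrm B y j))
    _ = (∑ i, ∑ j, nrm B (B i * B j)) * (nrm B x * nrm B y) := by
        rw [Finset.sum_mul]
        refine Finset.sum_congr rfl fun i _ => ?_
        rw [Finset.sum_mul]
        refine Finset.sum_congr rfl fun j _ => ?_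
        rw [mul_comm]
    _ ≤ (1 + ∑ i, ∑ j, nrm B (B i * B j)) * (nrm B x * nrm B y) := by
        apply Nat.mul_le_mul_right
        omega
    _ = _ := by rw [mul_assoc]

/-- The elements of norm at most `k`. -/
noncomputable def box (k : ℕ) : Finset R :=
  (Fintype.piFinset fun _ : Fin D => Finset.Icc (-(k : ℤ)) k).map
    B.equivFun.symm.toEquiv.toEmbedding

theorem mem_box {k : ℕ} {x : R} : x ∈ box B k ↔ nrm B x ≤ k := by
  rw [box, Finset.mem_map, nrm_le_iff]
  constructor
  · rintro ⟨u, hu, rfl⟩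
    intro i
    rw [Fintype.mem_piFinset] at hu
    have := hu i
    rw [Finset.mem_Icc] at this
    have e : B.repr (B.equivFun.symm.toEquiv.toEmbedding u) i = u i := by
      have : B.equivFun (B.equivFun.symm u) i = u i := by rw [LinearEquiv.apply_symm_apply]
      simpa using this
    rw [e]
    omega
  · intro h
    refine ⟨B.equivFun x, ?_, ?_⟩
    · rw [Fintype.mem_piFinset]
      intro i
      have := h i
      rw [Finset.mem_Icc, Module.Basis.equivFun_apply]
      omega
    · show B.equivFun.symm (B.equivFun x) = x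
      rw [LinearEquiv.symm_apply_apply]

theorem card_box (k : ℕ) : (box B k).card = (2 * k + 1) ^ D := by
  rw [box, Finset.card_map, Fintype.card_piFinset]
  simp only [Int.card_Icc, Finset.prod_const, Finset.card_univ, Fintype.card_fin]
  congr 1
  omega

theorem nrm_mul_smul_le {K : ℕ} (hK : ∀ x y : R, nrm B (x * y) ≤ K * nrm B x * nrm B y)
    {x y : R} {k l : ℕ} (hx : nrm B x ≤ k) (hy : nrm B y ≤ l) : nrm B (x * y) ≤ K * k * l :=
  (hK x y).trans (Nat.mul_le_mul (Nat.mul_le_mul_left _ hx) hy)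

end Q224.PiAdic
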