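import Pool.Agent.Q224.PiAdic.Link

/-!
# The two size functions
-/

set_option autoImplicit false

namespace Q224.PiAdic

open Finset

variable {R : Type*} [CommRing R] {N : ℕ}

theorem logb_two_mul (N k : ℕ) : (2 : ℕ) * Real.logb N k = Real.logb N (((k ^ 2 : ℕ)) : ℝ) := by
  push_cast
  rw [Real.logb_pow]
  norm_num

theorem phiImag_ge (hN : 2 ≤ N) (B : Module.Basis (Fin 2) ℤ R) (x : R) :
    (2 : ℕ) * Real.logb N (nrm B x) ≤ phiImag N B x := by
  have hN1 : (1 : ℝ) < N := by exact_mod_cast (by omega : 1 < N)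
  rcases Nat.eq_zero_or_pos (nrm B x) with h0 | h0
  · have hx : x = 0 := (nrm_eq_zero B).mp h0
    rw [h0, hx]
    simp [phiImag]
  · rw [logb_two_mul, phiImag]
    apply Real.logb_le_logb_of_le hN1
    · exact_mod_cast Nat.pow_pos h0
    · have key : ((nrm B x ^ 2 : ℕ) : ℤ) ≤ (B.repr x 0) ^ 2 + N * (B.repr x 1) ^ 2 := by
        have h1 : nrm B x ≤ max (B.repr x 0).natAbs (B.repr x 1).natAbs := by
          rw [nrm_le_iff]
          intro i
          fin_cases i
          · exact le_max_left _ _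
          · exact le_max_right _ _
        have e0 : (B.repr x 0) ^ 2 = (((B.repr x 0).natAbs ^ 2 : ℕ) : ℤ) := by
          push_cast
          rw [sq_abs]
        have e1 : (B.repr x 1) ^ 2 = (((B.repr x 1).natAbs ^ 2 : ℕ) : ℤ) := by
          push_cast
          rw [sq_abs]
        rw [e0, e1]
        norm_cast
        rcases le_total (B.repr x 0).natAbs (B.repr x 1).natAbs with h2 | h2
        · rw [max_eq_right h2] at h1
          have h3 := Nat.pow_le_pow_left h1 2
          have h4 : (B.repr x 1).natAbs ^ 2 ≤ N * (B.repr x 1).natAbs ^ 2 :=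
            Nat.le_mul_of_pos_left _ (by omega)
          omega
        · rw [max_eq_left h2] at h1
          have h3 := Nat.pow_le_pow_left h1 2
          omega
      exact_mod_cast key

theorem phiImag_le (hN : 2 ≤ N) (B : Module.Basis (Fin 2) ℤ R) (x : R) :
    phiImag N B x ≤ (2 : ℕ) * Real.logb N (nrm B x) + Real.logb N ((N + 1 : ℕ) : ℝ) := by
  have hN1 : (1 : ℝ) < N := by exact_mod_cast (by omega : 1 < N)
  have hc : 0 ≤ Real.logb N ((N + 1 : ℕ) : ℝ) :=
    Real.logb_nonneg hN1 (by exact_mod_cast (by omega : 1 ≤ N + 1))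
  rcases Nat.eq_zero_or_pos (nrm B x) with h0 | h0
  · have hx : x = 0 := (nrm_eq_zero B).mp h0
    rw [h0, hx]
    simpa [phiImag] using hc
  · have h0' : (0 : ℝ) < ((nrm B x ^ 2 : ℕ) : ℝ) := by exact_mod_cast Nat.pow_pos h0
    rw [logb_two_mul, phiImag, ← Real.logb_mul h0'.ne' (by positivity)]
    have hx : x ≠ 0 := fun hcon => by rw [hcon, nrm_zero] at h0; omega
    have e0 : (B.repr x 0) ^ 2 = (((B.repr x 0).natAbs ^ 2 : ℕ) : ℤ) := by
      push_cast
      rw [sq_abs]
    have e1 : (B.repr x 1) ^ 2 = (((B.repr x 1).natAbs ^ 2 : ℕ) : ℤ) := by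
      push_cast
      rw [sq_abs]
    have e : (B.repr x 0) ^ 2 + N * (B.repr x 1) ^ 2 =
        (((B.repr x 0).natAbs ^ 2 + N * (B.repr x 1).natAbs ^ 2 : ℕ) : ℤ) := by
      rw [e0, e1]; push_cast; ring
    rw [e]
    have hpos : 0 < (B.repr x 0).natAbs ^ 2 + N * (B.repr x 1).natAbs ^ 2 := by
      by_contra hcon
      push Not at hcon
      have h1 : (B.repr x 0).natAbs ^ 2 = 0 := by omega
      have h2 : N * (B.repr x 1).natAbs ^ 2 = 0 := by omega
      have h3 : (B.repr x 0).natAbs = 0 := by simpa using h1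
      have h4 : (B.repr x 1).natAbs = 0 := by
        rcases Nat.mul_eq_zero.mp h2 with h4 | h4
        · omega
        · simpa using h4
      have h5 : nrm B x ≤ 0 := by
        rw [nrm_le_iff]
        intro i
        fin_cases i
        · exact h3.le
        · exact h4.le
      omega
    apply Real.logb_le_logb_of_le hN1
    · exact_mod_cast hpos
    · have key : (B.repr x 0).natAbs ^ 2 + N * (B.repr x 1).natAbs ^ 2 ≤ nrm B x ^ 2 * (N + 1) := by
        have h1 := Nat.pow_le_pow_left (natAbs_le_nrm B x 0) 2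
        have h2 := Nat.pow_le_pow_left (natAbs_le_nrm B x 1) 2
        nlinarith
      exact_mod_cast key

variable {d : ℕ}

theorem term_le (hN : 2 ≤ N) (B : Module.Basis (Fin d) ℤ R) (x : R) {y : ℝ}
    (hy : y ∈ {y | ∃ i : Fin d, B.repr x i ≠ 0 ∧ y = d * Real.logb N (|B.repr x i| : ℤ) + i}) :
    y ≤ d * Real.logb N (nrm B x) + d := by
  have hN1 : (1 : ℝ) < N := by exact_mod_cast (by omega : 1 < N)
  obtain ⟨i, hi, rfl⟩ := hy
  have h1 : (0 : ℤ) < |B.repr x i| := abs_pos.mpr hi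
  have h2 : |B.repr x i| ≤ (nrm B x : ℤ) := by
    rw [Int.abs_eq_natAbs]
    exact_mod_cast natAbs_le_nrm B x i
  have h3 : Real.logb N (|B.repr x i| : ℤ) ≤ Real.logb N (nrm B x) := by
    apply Real.logb_le_logb_of_le hN1
    · exact_mod_cast h1
    · exact_mod_cast h2
  have h4 : ((i : ℕ) : ℝ) ≤ d := by exact_mod_cast i.2.le
  have h5 : (0 : ℝ) ≤ d := Nat.cast_nonneg d
  have := mul_le_mul_of_nonneg_left h3 h5
  linarith

theorem phiReal_le (hN : 2 ≤ N) (B : Module.Basis (Fin d) ℤ R) (x : R) :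
    phiReal N B x ≤ d * Real.logb N (nrm B x) + d := by
  apply Real.sSup_le
  · intro y hy
    exact term_le hN B x hy
  · have hN1 : (1 : ℝ) < N := by exact_mod_cast (by omega : 1 < N)
    rcases Nat.eq_zero_or_pos (nrm B x) with h0 | h0
    · rw [h0]; simp
    · have : 0 ≤ Real.logb N (nrm B x) := Real.logb_nonneg hN1 (by exact_mod_cast h0)
      positivity

theorem phiReal_ge (hN : 2 ≤ N) (hd : 1 ≤ d) (B : Module.Basis (Fin d) ℤ R) (x : R) :
    d * Real.logb N (nrm B x) ≤ phiReal N B x := by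
  rcases Nat.eq_zero_or_pos (nrm B x) with h0 | h0
  · have hx : x = 0 := (nrm_eq_zero B).mp h0
    rw [h0, hx]
    simp [phiReal]
  · have : Nonempty (Fin d) := ⟨⟨0, hd⟩⟩
    obtain ⟨i, -, hi⟩ := Finset.exists_mem_eq_sup (univ : Finset (Fin d)) Finset.univ_nonempty
      (fun i => (B.repr x i).natAbs)
    have hi' : nrm B x = (B.repr x i).natAbs := hi
    have hne : B.repr x i ≠ 0 := by
      intro hcon
      rw [hi', hcon] at h0
      simp at h0
    have hmem : (d : ℝ) * Real.logb N (|B.repr x i| : ℤ) + i ∈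
        {y | ∃ i : Fin d, B.repr x i ≠ 0 ∧ y = d * Real.logb N (|B.repr x i| : ℤ) + i} :=
      ⟨i, hne, rfl⟩
    have h1 : (d : ℝ) * Real.logb N (|B.repr x i| : ℤ) + i ≤ phiReal N B x :=
      le_csSup ⟨_, fun y hy => term_le hN B x hy⟩ hmem
    have h2 : ((|B.repr x i| : ℤ) : ℝ) = (nrm B x : ℝ) := by
      rw [hi', Int.abs_eq_natAbs, Int.cast_natCast]
    rw [h2] at h1
    have h3 : (0 : ℝ) ≤ ((i : ℕ) : ℝ) := Nat.cast_nonneg _
    linarith

end Q224.PiAdic
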