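import Pool.Agent.Q224.PiAdic.Link
import Pool.Agent.Q224.NAdic.Cover

/-!
# The covering argument
-/

set_option autoImplicit false

namespace Q224.PiAdic

open Finset

variable {R : Type*} [CommRing R] {N D : ℕ} {B : Module.Basis (Fin D) ℤ R} {p : R}

/-- There is a short vector `(f, h)` with `f ≡ p h α mod p ^ n`. -/
def Bad (B : Module.Basis (Fin D) ℤ R) (p : R) (n : ℕ) (α : R) (r : ℕ) : Prop :=
  ∃ f h : R, (f ≠ 0 ∨ h ≠ 0) ∧ nrm B f ≤ 2 * r ∧ nrm B h ≤ 2 * r ∧ p ^ n ∣ f - p * h * α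

/-- Residues modulo `p ^ n`. -/
abbrev G (p : R) (n : ℕ) : Type _ := R ⧸ Ideal.span {p ^ n}

/-- The residue class. -/
abbrev mk (p : R) (n : ℕ) : R →+* G p n := Ideal.Quotient.mk (Ideal.span {p ^ n})

theorem mk_eq_iff {n : ℕ} {x y : R} : mk p n x = mk p n y ↔ p ^ n ∣ x - y := by
  rw [Ideal.Quotient.eq, Ideal.mem_span_singleton]

theorem bijective_num (h : Setup N D B p) (n : ℕ) :
    Function.Bijective fun a : Fin n → Fin N => mk p n (num p a) := by
  constructor
  · intro a a' he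
    exact h.eq_of_dvd (mk_eq_iff.mp he)
  · intro x
    obtain ⟨x, rfl⟩ := Ideal.Quotient.mk_surjective x
    obtain ⟨a, ha⟩ := h.exists_num n x
    exact ⟨a, (mk_eq_iff.mpr ha).symm⟩

/-- The residue ring is finite. -/
@[instance_reducible] noncomputable def fintypeG (h : Setup N D B p) (n : ℕ) : Fintype (G p n) :=
  Fintype.ofBijective _ (bijective_num h n)

theorem natCard_G (h : Setup N D B p) (n : ℕ) : Nat.card (G p n) = N ^ n := by
  rw [← Nat.card_congr (Equiv.ofBijective _ (bijective_num h n))]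
  simp

/-- The homomorphism `(f, h) ↦ f - p h α mod p ^ n`. -/
noncomputable def hom (p : R) (n : ℕ) (α : R) : R × R →+ G p n where
  toFun q := mk p n (q.1 - p * q.2 * α)
  map_zero' := by simp
  map_add' q q' := by
    rw [← map_add]
    congr 1
    simp only [Prod.fst_add, Prod.snd_add]
    ring

theorem hom_apply (n : ℕ) (α : R) (q : R × R) : hom p n α q = mk p n (q.1 - p * q.2 * α) := rfl

open scoped Classical in
theorem mem_S_imp {n : ℕ} (α : R) (r : ℕ) (k : ℕ) (x : G p n)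
    (hx : x ∈ Q224.NAdic.S ((box B r ×ˢ box B r).image (hom p n α)) k) :
    ∃ q : R × R, nrm B q.1 ≤ k * r ∧ nrm B q.2 ≤ k * r ∧ hom p n α q = x := by
  induction k generalizing x with
  | zero =>
    simp only [Q224.NAdic.S, Finset.mem_singleton] at hx
    exact ⟨0, by simp [nrm_zero], by simp [nrm_zero], by simp [hx]⟩
  | succ k ih =>
    obtain ⟨y, hy, z, hz, rfl⟩ := Finset.mem_add.mp hx
    obtain ⟨q, hq1, hq2, rfl⟩ := ih y hy
    obtain ⟨q', hq', rfl⟩ := Finset.mem_image.mp hz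
    rw [Finset.mem_product, mem_box, mem_box] at hq'
    refine ⟨q + q', ?_, ?_, map_add _ _ _⟩
    · calc nrm B (q.1 + q'.1) ≤ nrm B q.1 + nrm B q'.1 := nrm_add_le B _ _
        _ ≤ k * r + r := add_le_add hq1 hq'.1
        _ = (k + 1) * r := by ring
    · calc nrm B (q.2 + q'.2) ≤ nrm B q.2 + nrm B q'.2 := nrm_add_le B _ _
        _ ≤ k * r + r := add_le_add hq2 hq'.2
        _ = (k + 1) * r := by ring

theorem nrm_basis_le (i : Fin D) : nrm B (B i) ≤ 1 := by
  rw [nrm_le_iff]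
  intro j
  rw [B.repr_self, Finsupp.single_apply]
  split_ifs <;> simp

theorem nrm_one_le (h : Setup N D B p) : nrm B 1 ≤ 1 := by
  have e : (1 : R) = B ⟨0, h.one_le⟩ := by rw [h.basis_eq, pow_zero]
  rw [e]
  exact nrm_basis_le _

theorem cover (h : Setup N D B p) {K : ℕ}
    (hK : ∀ x y : R, nrm B (x * y) ≤ K * nrm B x * nrm B y) {n : ℕ} {α : R} {r : ℕ}
    (hr : 1 ≤ r) (hb : ¬ Bad B p n α r) :
    ∃ (k : ℕ) (f g : R), IsCoprime g p ∧ p ^ n ∣ f - g * α ∧
      max (nrm B f) (nrm B g) ≤ 1 + (K * nrm B p + 1) * (k * r) ∧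
      k * ((2 * r + 1) ^ D * (2 * r + 1) ^ D) ≤ 7 * N ^ n := by
  classical
  let _ := fintypeG h n
  set S0 : Finset (G p n) := (box B r ×ˢ box B r).image (hom p n α) with hS0
  -- injectivity on the box
  have hinj : Set.InjOn (hom p n α) (box B r ×ˢ box B r : Finset (R × R)) := by
    intro q hq q' hq' he
    rw [Finset.mem_coe, Finset.mem_product, mem_box, mem_box] at hq hq'
    by_contra hne
    apply hb
    refine ⟨q.1 - q'.1, q.2 - q'.2, ?_, ?_, ?_, ?_⟩
    · by_contra hcon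
      push Not at hcon
      exact hne (Prod.ext (sub_eq_zero.mp hcon.1) (sub_eq_zero.mp hcon.2))
    · have := nrm_sub_le B q.1 q'.1
      omega
    · have := nrm_sub_le B q.2 q'.2
      omega
    · rw [hom_apply, hom_apply, mk_eq_iff] at he
      have e : q.1 - q'.1 - p * (q.2 - q'.2) * α = (q.1 - p * q.2 * α) - (q'.1 - p * q'.2 * α) := by
        ring
      rwa [e]
  have hcard : S0.card = (2 * r + 1) ^ D * (2 * r + 1) ^ D := by
    rw [hS0, Finset.card_image_of_injOn hinj, Finset.card_product, card_box]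
  have h0 : (0 : G p n) ∈ S0 := Finset.mem_image.mpr
    ⟨0, by rw [Finset.mem_product, mem_box, mem_box]; simp [nrm_zero], map_zero _⟩
  have hneg : ∀ x ∈ S0, -x ∈ S0 := by
    intro x hx
    obtain ⟨q, hq, rfl⟩ := Finset.mem_image.mp hx
    refine Finset.mem_image.mpr ⟨-q, ?_, map_neg _ _⟩
    rw [Finset.mem_product, mem_box, mem_box] at *
    simpa [nrm_neg] using hq
  have hgen : AddSubgroup.closure (S0 : Set (G p n)) = ⊤ := by
    rw [eq_top_iff]
    intro x _
    obtain ⟨x, rfl⟩ := Ideal.Quotient.mk_surjective x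
    rw [← B.sum_repr x, map_sum]
    apply AddSubgroup.sum_mem
    intro i _
    rw [map_zsmul]
    apply AddSubgroup.zsmul_mem
    apply AddSubgroup.subset_closure
    rw [Finset.mem_coe]
    refine Finset.mem_image.mpr ⟨(B i, 0), ?_, by simp [hom_apply]⟩
    rw [Finset.mem_product, mem_box, mem_box]
    exact ⟨(nrm_basis_le i).trans hr, by simp [nrm_zero]⟩
  obtain ⟨k, hk, hk'⟩ := Q224.NAdic.exists_cover h0 hneg hgen
  rw [← Nat.card_eq_fintype_card, natCard_G h, hcard] at hk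
  have hA : mk p n α ∈ Q224.NAdic.S S0 k := by rw [hk']; exact Finset.mem_univ _
  obtain ⟨q, hq1, hq2, hq3⟩ := mem_S_imp (B := B) α r k _ hA
  rw [hom_apply, mk_eq_iff] at hq3
  refine ⟨k, q.1, 1 + p * q.2, ⟨1, -q.2, by ring⟩, ?_, ?_, hk⟩
  · have e : q.1 - (1 + p * q.2) * α = (q.1 - p * q.2 * α) - α := by ring
    rwa [e]
  · apply max_le
    · calc nrm B q.1 ≤ k * r := hq1
        _ ≤ 1 + (K * nrm B p + 1) * (k * r) := by nlinarith [Nat.zero_le (K * nrm B p * (k * r))]
    · calc nrm B (1 + p * q.2) ≤ nrm B 1 + nrm B (p * q.2) := nrm_add_le B _ _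
        _ ≤ 1 + K * nrm B p * (k * r) :=
            add_le_add (nrm_one_le h) (nrm_mul_smul_le B hK le_rfl hq2)
        _ ≤ 1 + (K * nrm B p + 1) * (k * r) := by nlinarith [Nat.zero_le (k * r)]

theorem nrm_pow_le (h : Setup N D B p) (i : ℕ) : nrm B (p ^ i) ≤ N ^ i := by
  induction i using Nat.strong_induction_on with
  | _ i ih =>
    have hN : 1 ≤ N := by have := h.two_le; omega
    have hD := h.one_le
    rcases Nat.lt_or_ge i D with hi | hi
    · have e : p ^ i = B ⟨i, hi⟩ := by rw [h.basis_eq]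
      rw [e]
      exact (nrm_basis_le _).trans (Nat.one_le_pow _ _ hN)
    · obtain ⟨j, rfl⟩ := Nat.exists_eq_add_of_le hi
      have hj := ih j (by omega)
      have e : nrm B (p ^ (D + j)) = N * nrm B (p ^ j) := by
        rw [pow_add]
        rcases h.pow_eq with h2 | h2
        · have e1 : p ^ D * p ^ j = (N : ℤ) • p ^ j := by rw [h2]; simp
          rw [e1, nrm_zsmul, Int.natAbs_natCast]
        · have e1 : p ^ D * p ^ j = (-(N : ℤ)) • p ^ j := by rw [h2]; simp
          rw [e1, nrm_zsmul, Int.natAbs_neg, Int.natAbs_natCast]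
      rw [e]
      calc N * nrm B (p ^ j) ≤ N * N ^ j := Nat.mul_le_mul_left _ hj
        _ = N ^ (1 + j) := by rw [pow_add, pow_one]
        _ ≤ N ^ (D + j) := Nat.pow_le_pow_right hN (by omega)

theorem M_le_trivial (h : Setup N D B p) {n : ℕ} (a : Fin n → Fin N) : M B p a ≤ N ^ n := by
  have hN : 1 ≤ N := by have := h.two_le; omega
  refine (M_le a (f := num p a) (g := 1) isCoprime_one_left (by simp)).trans (max_le ?_ ?_)
  · calc nrm B (num p a) ≤ ∑ i : Fin n, nrm B (((a i : ℕ) : R) * p ^ (i : ℕ)) := nrm_sum_le B _ _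
      _ ≤ ∑ i : Fin n, (a i : ℕ) * N ^ (i : ℕ) := by
          apply Finset.sum_le_sum
          intro i _
          have e : ((a i : ℕ) : R) * p ^ (i : ℕ) = ((a i : ℕ) : ℤ) • p ^ (i : ℕ) := by simp
          rw [e, nrm_zsmul, Int.natAbs_natCast]
          exact Nat.mul_le_mul_left _ (nrm_pow_le h i)
      _ = ((finFunctionFinEquiv a : Fin (N ^ n)) : ℕ) := by rw [finFunctionFinEquiv_apply]
      _ ≤ N ^ n := (finFunctionFinEquiv a).2.le
  · exact (nrm_one_le h).trans (Nat.one_le_pow _ _ hN)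

/-- A nonzero multiple of `p ^ n` is long. -/
theorem le_nrm_of_dvd (h : Setup N D B p) {n : ℕ} {f : R} (hf : f ≠ 0) (hd : p ^ n ∣ f) :
    N ^ n ≤ N ^ D * nrm B f ^ D := by
  have hN : 1 ≤ N := by have := h.two_le; omega
  have hD := h.one_le
  have key : ∀ (k : ℕ) (y : R), y ≠ 0 → N ^ k ≤ nrm B (p ^ (D * k) * y) := by
    intro k
    induction k with
    | zero => intro y hy; simpa using nrm_pos B hy
    | succ k ih =>
      intro y hy
      have e : p ^ (D * (k + 1)) * y = p ^ D * (p ^ (D * k) * y) := by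
        rw [Nat.mul_succ, pow_add]; ring
      rw [e]
      have e2 : nrm B (p ^ D * (p ^ (D * k) * y)) = N * nrm B (p ^ (D * k) * y) := by
        rcases h.pow_eq with h2 | h2
        · have e1 : p ^ D * (p ^ (D * k) * y) = (N : ℤ) • (p ^ (D * k) * y) := by rw [h2]; simp
          rw [e1, nrm_zsmul, Int.natAbs_natCast]
        · have e1 : p ^ D * (p ^ (D * k) * y) = (-(N : ℤ)) • (p ^ (D * k) * y) := by rw [h2]; simp
          rw [e1, nrm_zsmul, Int.natAbs_neg, Int.natAbs_natCast]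
      rw [e2, pow_succ']
      exact Nat.mul_le_mul_left _ (ih y hy)
  obtain ⟨y, rfl⟩ := hd
  have h1 : p ^ n * y = p ^ (D * (n / D)) * (p ^ (n % D) * y) := by
    rw [← mul_assoc, ← pow_add, Nat.div_add_mod]
  have h2 : p ^ (n % D) * y ≠ 0 := by
    intro hcon
    rw [h1, hcon, mul_zero] at hf
    exact hf rfl
  have h3 := key (n / D) _ h2
  rw [← h1] at h3
  calc N ^ n = N ^ (D * (n / D) + n % D) := by rw [Nat.div_add_mod]
    _ = N ^ (n % D) * (N ^ (n / D)) ^ D := by rw [pow_add, mul_comm, ← pow_mul, mul_comm D]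
    _ ≤ N ^ D * nrm B (p ^ n * y) ^ D :=
        Nat.mul_le_mul (Nat.pow_le_pow_right hN (Nat.mod_lt _ hD).le) (Nat.pow_le_pow_left h3 D)

end Q224.PiAdic
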