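import Pool.Agent.Q224.PiAdic.Upper1

/-!
# Counting the residues with a short vector
-/

set_option autoImplicit false

namespace Q224.PiAdic

open Finset

variable {R : Type*} [CommRing R] {N D : ℕ} {B : Module.Basis (Fin D) ℤ R} {p : R}

/-- Every element has a short representative modulo `H R`. -/
theorem exists_rep [IsDomain R] {K : ℕ}
    (hK : ∀ x y : R, nrm B (x * y) ≤ K * nrm B x * nrm B y) {H : R} (hH : H ≠ 0) (x : R) :
    ∃ z : R, nrm B (x - H * z) ≤ K * nrm B H := by
  have : Module.Finite ℤ R := Module.Finite.of_basis B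
  have hint : IsIntegral ℤ H := Algebra.IsIntegral.isIntegral H
  have h1 := Ideal.comap_ne_bot_of_integral_mem (I := Ideal.span {H}) hH
    (Ideal.mem_span_singleton_self H) hint
  obtain ⟨m, hm, hm0⟩ := Submodule.exists_mem_ne_zero_of_ne_bot h1
  rw [Ideal.mem_comap, Ideal.mem_span_singleton] at hm
  obtain ⟨H', hH'⟩ := hm
  have hH'' : (m : R) = H * H' := by simpa using hH'
  set w := H' * x with hw
  set z : R := ∑ i, (B.repr w i / m) • B i with hz
  set ρ : R := ∑ i, (B.repr w i % m) • B i with hρ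
  have hwz : w = m • z + ρ := by
    conv_lhs => rw [← B.sum_repr w]
    rw [hz, hρ, Finset.smul_sum, ← Finset.sum_add_distrib]
    refine Finset.sum_congr rfl fun i _ => ?_
    rw [smul_smul, ← add_smul, Int.mul_ediv_add_emod]
  have hρn : nrm B ρ ≤ m.natAbs := by
    rw [nrm_le_iff]
    intro i
    have e : B.repr ρ i = B.repr w i % m := by
      rw [hρ, B.repr_sum_self]
    rw [e]
    have h2 := Int.emod_nonneg (B.repr w i) hm0
    have h3 := Int.emod_lt_abs (B.repr w i) hm0
    rw [Int.abs_eq_natAbs] at h3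
    omega
  refine ⟨z, ?_⟩
  have e1 : m • (x - H * z) = H * ρ := by
    have e2 : ρ = w - m • z := by rw [hwz]; ring
    rw [e2, hw, mul_sub, ← mul_assoc, ← hH'', zsmul_eq_mul, zsmul_eq_mul]
    ring
  have h2 : m.natAbs * nrm B (x - H * z) ≤ m.natAbs * (K * nrm B H) := by
    rw [← nrm_zsmul, e1, mul_comm m.natAbs]
    exact nrm_mul_smul_le B hK le_rfl hρn
  exact Nat.le_of_mul_le_mul_left h2 (by omega)

/-- Multiplication by `H` on the residues. -/
noncomputable def mulHom (p : R) (n : ℕ) (H : R) : G p n →+ G p n := AddMonoidHom.mulLeft (mk p n H)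

theorem mulHom_apply (n : ℕ) (H : R) (x : G p n) : mulHom p n H x = mk p n H * x := rfl

open scoped Classical in
theorem card_AH [IsDomain R] {K : ℕ}
    (hK : ∀ x y : R, nrm B (x * y) ≤ K * nrm B x * nrm B y) {H : R} (hH : H ≠ 0) (n s : ℕ)
    [Fintype (G p n)] :
    ((univ : Finset (G p n)).filter fun x => ∃ f : R, nrm B f ≤ s ∧ mk p n f = mk p n H * x).card ≤
      (2 * (s + K * nrm B H) + 1) ^ D := by
  set μ := mulHom p n H with hμ
  set Y : Finset (G p n) :=
    (univ : Finset (G p n)).filter fun y => y ∈ μ.range ∧ ∃ f : R, nrm B f ≤ s ∧ mk p n f = y with hY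
  have : Finite (G p n ⧸ μ.range) := Quotient.finite _
  let _ : Fintype (G p n ⧸ μ.range) := Fintype.ofFinite _
  -- the number of solutions
  have h1 : ((univ : Finset (G p n)).filter fun x => ∃ f : R, nrm B f ≤ s ∧
      mk p n f = mk p n H * x).card = Y.card * Nat.card μ.ker := by
    have hmaps : Set.MapsTo μ ((univ : Finset (G p n)).filter fun x => ∃ f : R, nrm B f ≤ s ∧
      mk p n f = mk p n H * x : Finset (G p n)) (Y : Set (G p n)) := by
      intro x hx
      rw [Finset.mem_coe, Finset.mem_filter] at hx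
      rw [Finset.mem_coe, hY, Finset.mem_filter]
      exact ⟨Finset.mem_univ _, ⟨x, rfl⟩, hx.2⟩
    rw [Finset.card_eq_sum_card_fiberwise hmaps, ← smul_eq_mul, ← Finset.sum_const]
    refine Finset.sum_congr rfl fun y hy => ?_
    rw [hY, Finset.mem_filter] at hy
    have e1 : ((univ : Finset (G p n)).filter fun x => ∃ f : R, nrm B f ≤ s ∧
      mk p n f = mk p n H * x).filter (fun x => μ x = y) =
      (univ : Finset (G p n)).filter (fun x => μ x = y) := by
      ext x
      simp only [Finset.mem_filter, Finset.mem_univ, true_and]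
      constructor
      · exact fun hx => hx.2
      · intro hx
        refine ⟨?_, hx⟩
        obtain ⟨f, hf, hf'⟩ := hy.2.2
        exact ⟨f, hf, by rw [hf', ← hx]; rfl⟩
    rw [e1]
    have e2 := AddMonoidHom.card_fiber_eq_of_mem_range μ hy.2.1 (x := y) (y := 0) ⟨0, map_zero μ⟩
    rw [e2, Nat.card_eq_fintype_card, Fintype.card_subtype]
    congr 1
    ext x
    simp [AddMonoidHom.mem_ker]
  have h2 : Nat.card μ.ker = Fintype.card (G p n ⧸ μ.range) := by
    have e1 := AddSubgroup.card_mul_index μ.ker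
    have e2 := AddSubgroup.card_mul_index μ.range
    rw [AddSubgroup.index_ker] at e1
    have e3 : 0 < Nat.card μ.range := Nat.card_pos
    have e4 : Nat.card μ.range * Nat.card μ.ker = Nat.card μ.range * μ.range.index := by
      rw [e2, mul_comm, e1]
    have e5 := Nat.eq_of_mul_eq_mul_left e3 e4
    rw [e5, AddSubgroup.index, Nat.card_eq_fintype_card]
  rw [h1, h2, ← Finset.card_univ, ← Finset.card_product, ← card_box B]
  -- representatives
  have hf : ∀ y : G p n, ∃ f : R, y ∈ Y → nrm B f ≤ s ∧ mk p n f = y := by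
    intro y
    by_cases hy : y ∈ Y
    · rw [hY, Finset.mem_filter] at hy
      obtain ⟨f, hf⟩ := hy.2.2
      exact ⟨f, fun _ => hf⟩
    · exact ⟨0, fun hcon => absurd hcon hy⟩
  choose F hF using hf
  have hρ : ∀ u : G p n ⧸ μ.range, ∃ x : R, nrm B x ≤ K * nrm B H ∧
      (QuotientAddGroup.mk (mk p n x) : G p n ⧸ μ.range) = u := by
    intro u
    obtain ⟨y, rfl⟩ := QuotientAddGroup.mk_surjective u
    obtain ⟨x, rfl⟩ := Ideal.Quotient.mk_surjective y
    obtain ⟨z, hz⟩ := exists_rep hK hH x
    refine ⟨x - H * z, hz, ?_⟩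
    rw [QuotientAddGroup.eq]
    refine ⟨mk p n z, ?_⟩
    rw [hμ, mulHom_apply]
    simp only [map_sub, map_mul]
    ring
  choose ρ hρ1 hρ2 using hρ
  apply Finset.card_le_card_of_injOn (fun q : G p n × (G p n ⧸ μ.range) => F q.1 + ρ q.2)
  · intro q hq
    rw [Finset.mem_coe, Finset.mem_product] at hq
    rw [Finset.mem_coe, mem_box]
    exact (nrm_add_le B _ _).trans (add_le_add (hF q.1 hq.1).1 (hρ1 q.2))
  · intro q hq q' hq' he
    rw [Finset.mem_coe, Finset.mem_product] at hq hq'
    simp only at he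
    have key : ∀ q : G p n × (G p n ⧸ μ.range), q.1 ∈ Y →
        (QuotientAddGroup.mk (mk p n (F q.1 + ρ q.2)) : G p n ⧸ μ.range) = q.2 := by
      intro q hq
      rw [map_add, (hF q.1 hq).2, QuotientAddGroup.mk_add, hρ2]
      have : (QuotientAddGroup.mk q.1 : G p n ⧸ μ.range) = 0 := by
        rw [QuotientAddGroup.eq_zero_iff]
        rw [hY, Finset.mem_filter] at hq
        exact hq.2.1
      rw [this, zero_add]
    have e1 : q.2 = q'.2 := by rw [← key q hq.1, ← key q' hq'.1, he]
    rw [e1, add_left_inj] at he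
    have e2 : q.1 = q'.1 := by rw [← (hF q.1 hq.1).2, ← (hF q'.1 hq'.1).2, he]
    exact Prod.ext e2 e1

open scoped Classical in
theorem card_bad [IsDomain R] (h : Setup N D B p) {K : ℕ}
    (hK : ∀ x y : R, nrm B (x * y) ≤ K * nrm B x * nrm B y) (n r : ℕ) (hr : 1 ≤ r) :
    ((univ : Finset (Fin n → Fin N)).filter fun a => Bad B p n (num p a) r).card ≤
      (N ^ D * 2 ^ D + 5 ^ D * (5 + 4 * K * (K * nrm B p)) ^ D) * r ^ (2 * D) := by
  have hN : 1 ≤ N := by have := h.two_le; omega
  let _ := fintypeG h n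
  have hrD : r ^ (2 * D) = r ^ D * r ^ D := by rw [two_mul, pow_add]
  have hr1 : 1 ≤ r ^ D := Nat.one_le_pow _ _ hr
  by_cases hA : ∃ f : R, f ≠ 0 ∧ nrm B f ≤ 2 * r ∧ p ^ n ∣ f
  · obtain ⟨f, hf0, hf, hd⟩ := hA
    calc ((univ : Finset (Fin n → Fin N)).filter fun a => Bad B p n (num p a) r).card
        ≤ (univ : Finset (Fin n → Fin N)).card := Finset.card_filter_le _ _
      _ = N ^ n := by simp
      _ ≤ N ^ D * nrm B f ^ D := le_nrm_of_dvd h hf0 hd
      _ ≤ N ^ D * (2 * r) ^ D := Nat.mul_le_mul_left _ (Nat.pow_le_pow_left hf D)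
      _ = (N ^ D * 2 ^ D) * (r ^ D * 1) := by rw [mul_pow]; ring
      _ ≤ (N ^ D * 2 ^ D) * r ^ (2 * D) := by
          rw [hrD]
          exact Nat.mul_le_mul_left _ (Nat.mul_le_mul_left _ hr1)
      _ ≤ _ := Nat.mul_le_mul_right _ (Nat.le_add_right _ _)
  · push Not at hA
    set S1 : Finset R := (box B (2 * r)).erase 0 with hS1
    have hsub : ((univ : Finset (Fin n → Fin N)).filter fun a => Bad B p n (num p a) r) ⊆
        S1.biUnion fun u => (univ : Finset (Fin n → Fin N)).filter fun a =>
          ∃ f : R, nrm B f ≤ 2 * r ∧ mk p n f = mk p n (p * u) * mk p n (num p a) := by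
      intro a ha
      rw [Finset.mem_filter] at ha
      obtain ⟨-, f, u, hne, hf, hu, hd⟩ := ha
      have hu0 : u ≠ 0 := by
        rintro rfl
        rw [mul_zero, zero_mul, sub_zero] at hd
        have hf0 : f ≠ 0 := by simpa using hne
        exact hA f hf0 hf hd
      rw [Finset.mem_biUnion]
      refine ⟨u, ?_, ?_⟩
      · rw [hS1, Finset.mem_erase, mem_box]
        exact ⟨hu0, hu⟩
      · rw [Finset.mem_filter]
        refine ⟨Finset.mem_univ _, f, hf, ?_⟩
        rw [← map_mul, mk_eq_iff]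
        exact hd
    have hcard : ∀ u ∈ S1, ((univ : Finset (Fin n → Fin N)).filter fun a =>
          ∃ f : R, nrm B f ≤ 2 * r ∧ mk p n f = mk p n (p * u) * mk p n (num p a)).card ≤
          (5 + 4 * K * (K * nrm B p)) ^ D * r ^ D := by
      intro u hu
      rw [hS1, Finset.mem_erase, mem_box] at hu
      have hpu : p * u ≠ 0 := fun hcon => hu.1 (h.p_mul_eq_zero hcon)
      have h1 : ((univ : Finset (Fin n → Fin N)).filter fun a =>
          ∃ f : R, nrm B f ≤ 2 * r ∧ mk p n f = mk p n (p * u) * mk p n (num p a)).card ≤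
          ((univ : Finset (G p n)).filter fun x =>
            ∃ f : R, nrm B f ≤ 2 * r ∧ mk p n f = mk p n (p * u) * x).card := by
        apply Finset.card_le_card_of_injOn (fun a => mk p n (num p a))
        · intro a ha
          rw [Finset.mem_coe, Finset.mem_filter] at ha
          rw [Finset.mem_coe, Finset.mem_filter]
          exact ⟨Finset.mem_univ _, ha.2⟩
        · exact (bijective_num h n).1.injOn
      refine h1.trans ((card_AH hK hpu n (2 * r)).trans ?_)
      rw [← mul_pow]
      apply Nat.pow_le_pow_left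
      have h2 : nrm B (p * u) ≤ K * nrm B p * (2 * r) := nrm_mul_smul_le B hK le_rfl hu.2
      have h3 : K * nrm B (p * u) ≤ K * (K * nrm B p * (2 * r)) := Nat.mul_le_mul_left _ h2
      nlinarith
    calc ((univ : Finset (Fin n → Fin N)).filter fun a => Bad B p n (num p a) r).card
        ≤ (S1.biUnion fun u => (univ : Finset (Fin n → Fin N)).filter fun a =>
          ∃ f : R, nrm B f ≤ 2 * r ∧ mk p n f = mk p n (p * u) * mk p n (num p a)).card :=
          Finset.card_le_card hsub
      _ ≤ ∑ u ∈ S1, ((univ : Finset (Fin n → Fin N)).filter fun a =>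
          ∃ f : R, nrm B f ≤ 2 * r ∧ mk p n f = mk p n (p * u) * mk p n (num p a)).card :=
          Finset.card_biUnion_le
      _ ≤ ∑ u ∈ S1, (5 + 4 * K * (K * nrm B p)) ^ D * r ^ D := Finset.sum_le_sum hcard
      _ = S1.card * ((5 + 4 * K * (K * nrm B p)) ^ D * r ^ D) := by simp
      _ ≤ (5 ^ D * r ^ D) * ((5 + 4 * K * (K * nrm B p)) ^ D * r ^ D) := by
          apply Nat.mul_le_mul_right
          calc S1.card ≤ (box B (2 * r)).card := Finset.card_le_card (Finset.erase_subset _ _)
            _ = (2 * (2 * r) + 1) ^ D := card_box B _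
            _ ≤ (5 * r) ^ D := Nat.pow_le_pow_left (by omega) D
            _ = 5 ^ D * r ^ D := mul_pow _ _ _
      _ = (5 ^ D * (5 + 4 * K * (K * nrm B p)) ^ D) * r ^ (2 * D) := by rw [hrD]; ring
      _ ≤ _ := Nat.mul_le_mul_right _ (Nat.le_add_left _ _)

end Q224.PiAdic
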