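import Pool.Agent.Q224.PiAdic.Upper2

/-!
# The upper bound, and the average
-/

set_option autoImplicit false

namespace Q224.PiAdic

open Finset

variable {R : Type*} [CommRing R] {N D : ℕ} {B : Module.Basis (Fin D) ℤ R} {p : R}

open scoped Classical in
/-- The largest `b ≤ X` without a short vector. -/
noncomputable def r (B : Module.Basis (Fin D) ℤ R) (p : R) (X : ℕ) {n : ℕ} (a : Fin n → Fin N) :
    ℕ :=
  Nat.findGreatest (fun b => b = 0 ∨ ¬ Bad B p n (num p a) b) X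

open scoped Classical in
theorem r_spec (X : ℕ) {n : ℕ} (a : Fin n → Fin N) :
    r B p X a = 0 ∨ ¬ Bad B p n (num p a) (r B p X a) :=
  Nat.findGreatest_spec (P := fun b => b = 0 ∨ ¬ Bad B p n (num p a) b) (Nat.zero_le X)
    (Or.inl rfl)

open scoped Classical in
theorem r_le (X : ℕ) {n : ℕ} (a : Fin n → Fin N) : r B p X a ≤ X :=
  Nat.findGreatest_le X

open scoped Classical in
theorem bad_of_r_lt {X : ℕ} {n : ℕ} {a : Fin n → Fin N} {b : ℕ} (h : r B p X a < b) (hb : b ≤ X) :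
    Bad B p n (num p a) b := by
  by_contra hcon
  exact Nat.findGreatest_is_greatest h hb (Or.inr hcon)

theorem log_M_le (h : Setup N D B p) {K : ℕ}
    (hK : ∀ x y : R, nrm B (x * y) ≤ K * nrm B x * nrm B y) {n X : ℕ}
    (hX : X ^ (2 * D) ≤ N ^ n) (a : Fin n → Fin N) :
    Real.log (M B p a) ≤ Real.log (((1 + 7 * (K * nrm B p + 1) : ℕ) : ℝ) * (N : ℝ) ^ n) -
      ((2 * D - 1 : ℕ) : ℝ) * Real.log ((max (r B p X a) 1 : ℕ) : ℝ) := by
  have hN : 2 ≤ N := h.two_le
  have hD := h.one_le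
  have hN0 : (0 : ℝ) < N := by exact_mod_cast (by omega : 0 < N)
  have hM : (0 : ℝ) < M B p a := by exact_mod_cast one_le_M h a
  set C := 1 + 7 * (K * nrm B p + 1) with hC
  have hC1 : 1 ≤ C := by omega
  have key : ∀ b : ℕ, 1 ≤ b → b ^ (2 * D - 1) * M B p a ≤ C * N ^ n →
      Real.log (M B p a) ≤ Real.log ((C : ℝ) * (N : ℝ) ^ n) -
        ((2 * D - 1 : ℕ) : ℝ) * Real.log (b : ℝ) := by
    intro b hb h'
    have hb' : (0 : ℝ) < b := by exact_mod_cast hb
    have h1 : (b : ℝ) ^ (2 * D - 1) * M B p a ≤ C * (N : ℝ) ^ n := by exact_mod_cast h'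
    have h2 := Real.log_le_log (by positivity) h1
    rw [Real.log_mul (by positivity) hM.ne', Real.log_pow] at h2
    linarith
  rcases Nat.eq_zero_or_pos (r B p X a) with h0 | hpos
  · rw [h0]
    apply key 1 le_rfl
    rw [one_pow, one_mul]
    calc M B p a ≤ N ^ n := M_le_trivial h a
      _ ≤ C * N ^ n := Nat.le_mul_of_pos_left _ hC1
  · have hbad := (r_spec X a).resolve_left hpos.ne'
    obtain ⟨k, f, g, hg, hd, hle, hk⟩ := cover h hK hpos hbad
    have h1 := (M_le a hg hd).trans hle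
    have : max (r B p X a) 1 = r B p X a := max_eq_left hpos
    rw [this]
    apply key _ hpos
    set b := r B p X a with hb
    obtain ⟨D', rfl⟩ := Nat.exists_eq_add_of_le' hD
    have e1 : 2 * (D' + 1) - 1 = 2 * D' + 1 := by omega
    rw [e1]
    have h2 : b ^ (2 * D' + 1) * b = b ^ (2 * (D' + 1)) := by
      rw [← pow_succ]; congr 1
    have h3 : b ^ (2 * (D' + 1)) ≤ N ^ n := (Nat.pow_le_pow_left (r_le X a) _).trans hX
    have h4 : b ^ (2 * D' + 1) ≤ N ^ n := by
      calc b ^ (2 * D' + 1) ≤ b ^ (2 * D' + 1) * b := Nat.le_mul_of_pos_right _ hpos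
        _ = b ^ (2 * (D' + 1)) := h2
        _ ≤ N ^ n := h3
    have h5 : k * b ^ (2 * (D' + 1)) ≤ 7 * N ^ n := by
      refine le_trans (Nat.mul_le_mul_left _ ?_) hk
      calc b ^ (2 * (D' + 1)) = b ^ (D' + 1) * b ^ (D' + 1) := by rw [two_mul, pow_add]
        _ ≤ (2 * b + 1) ^ (D' + 1) * (2 * b + 1) ^ (D' + 1) :=
            Nat.mul_le_mul (Nat.pow_le_pow_left (by omega) _) (Nat.pow_le_pow_left (by omega) _)
    calc b ^ (2 * D' + 1) * M B p a
        ≤ b ^ (2 * D' + 1) * (1 + (K * nrm B p + 1) * (k * b)) := Nat.mul_le_mul_left _ h1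
      _ = b ^ (2 * D' + 1) + (K * nrm B p + 1) * (k * (b ^ (2 * D' + 1) * b)) := by ring
      _ = b ^ (2 * D' + 1) + (K * nrm B p + 1) * (k * b ^ (2 * (D' + 1))) := by rw [h2]
      _ ≤ N ^ n + (K * nrm B p + 1) * (7 * N ^ n) :=
          add_le_add h4 (Nat.mul_le_mul_left _ h5)
      _ = C * N ^ n := by rw [hC]; ring

theorem card_r_le [IsDomain R] (h : Setup N D B p) {K : ℕ}
    (hK : ∀ x y : R, nrm B (x * y) ≤ K * nrm B x * nrm B y) {n X T : ℕ} (hT : T ∈ Ico 1 X) :
    ((univ : Finset (Fin n → Fin N)).filter (fun a => max (r B p X a) 1 ≤ T)).card ≤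
      (N ^ D * 2 ^ D + 5 ^ D * (5 + 4 * K * (K * nrm B p)) ^ D) * 2 ^ (2 * D) * T ^ (2 * D) := by
  classical
  rw [Finset.mem_Ico] at hT
  have h1 : ((univ : Finset (Fin n → Fin N)).filter (fun a => max (r B p X a) 1 ≤ T)).card ≤
      ((univ : Finset (Fin n → Fin N)).filter fun a => Bad B p n (num p a) (T + 1)).card := by
    apply Finset.card_le_card
    intro a ha
    rw [Finset.mem_filter] at ha ⊢
    have h2 : r B p X a < T + 1 := by
      have := (le_max_left (r B p X a) 1).trans ha.2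
      omega
    exact ⟨Finset.mem_univ _, bad_of_r_lt h2 (by omega)⟩
  refine h1.trans ((card_bad h hK n (T + 1) (by omega)).trans ?_)
  have h3 : (T + 1) ^ (2 * D) ≤ 2 ^ (2 * D) * T ^ (2 * D) := by
    rw [← mul_pow]
    exact Nat.pow_le_pow_left (by omega) _
  exact le_trans (Nat.mul_le_mul_left _ h3) (le_of_eq (mul_assoc _ _ _).symm)

theorem sum_log_M_le [IsDomain R] (h : Setup N D B p) :
    ∃ C : ℝ, 0 ≤ C ∧ ∀ n : ℕ, ∑ a : Fin n → Fin N, Real.log (M B p a) ≤
      (N : ℝ) ^ n * ((n : ℝ) * Real.log N / (2 * D : ℕ) + C) := by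
  obtain ⟨K, hK1, hK⟩ := exists_mul_bound B
  have hN : 2 ≤ N := h.two_le
  have hD := h.one_le
  have hN1 : (1 : ℝ) ≤ N := by exact_mod_cast (by omega : 1 ≤ N)
  have hlogN : 0 ≤ Real.log N := Real.log_nonneg hN1
  set C1 : ℕ := (N ^ D * 2 ^ D + 5 ^ D * (5 + 4 * K * (K * nrm B p)) ^ D) * 2 ^ (2 * D) with hC1
  set C2 : ℕ := 1 + 7 * (K * nrm B p + 1) with hC2
  have hC2' : (1 : ℝ) ≤ C2 := by exact_mod_cast (by omega : 1 ≤ C2)
  have hl2 : 0 ≤ Real.log 2 := Real.log_nonneg (by norm_num)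
  refine ⟨Real.log C2 + ((2 * D - 1 : ℕ) : ℝ) * (Real.log 2 + C1), ?_, ?_⟩
  · have := Real.log_nonneg hC2'
    positivity
  intro n
  have hq : 1 ≤ N ^ n := Nat.one_le_pow _ _ (by omega)
  obtain ⟨X, hX1, hXq, hlog⟩ := exists_root (N ^ n) (2 * D) hq (by omega)
  have h1 := Q224.NAdic.sum_log_ge (univ : Finset (Fin n → Fin N)) (fun a => max (r B p X a) 1)
    (fun a _ => le_max_right _ _) X hX1
    (fun T => C1 * (T : ℝ) ^ (2 * D)) (by
      intro T hT
      exact_mod_cast card_r_le h hK hT)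
  have h2 : ∑ T ∈ Ico 1 X, (C1 : ℝ) * (T : ℝ) ^ (2 * D) / T ≤ C1 * (N : ℝ) ^ n := by
    refine (sum_pow_le C1 (by positivity) (2 * D) (by omega) X).trans ?_
    apply mul_le_mul_of_nonneg_left _ (by positivity)
    exact_mod_cast hXq
  rw [Finset.sum_sub_distrib, Finset.sum_const, Finset.card_univ, Fintype.card_fun,
    Fintype.card_fin, Fintype.card_fin, nsmul_eq_mul] at h1
  have h3 : ∑ a : Fin n → Fin N, Real.log (M B p a) ≤
      ∑ a : Fin n → Fin N, (Real.log ((C2 : ℝ) * (N : ℝ) ^ n) -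
        ((2 * D - 1 : ℕ) : ℝ) * Real.log ((max (r B p X a) 1 : ℕ) : ℝ)) :=
    Finset.sum_le_sum fun a _ => log_M_le h hK hXq a
  rw [Finset.sum_sub_distrib, Finset.sum_const, Finset.card_univ, Fintype.card_fun,
    Fintype.card_fin, Fintype.card_fin, nsmul_eq_mul, ← Finset.mul_sum] at h3
  have hlog2 : Real.log ((N ^ n : ℕ) : ℝ) = n * Real.log N := by
    push_cast
    rw [Real.log_pow]
  rw [hlog2] at hlog
  have hN0 : (0 : ℝ) < N := by linarith
  have hlog3 : Real.log ((C2 : ℝ) * (N : ℝ) ^ n) = Real.log C2 + n * Real.log N := by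
    rw [Real.log_mul (by positivity) (by positivity), Real.log_pow]
  rw [hlog3] at h3
  have hq' : (0 : ℝ) < (N : ℝ) ^ n := by positivity
  have hd' : ((2 * D - 1 : ℕ) : ℝ) = ((2 * D : ℕ) : ℝ) - 1 := by
    rw [Nat.cast_sub (by omega)]; push_cast; ring
  set d' : ℝ := ((2 * D - 1 : ℕ) : ℝ) with hdd
  set w : ℝ := ((2 * D : ℕ) : ℝ) with hw
  have hw0 : 0 < w := by rw [hw]; exact_mod_cast (by omega : 0 < 2 * D)
  have hd0 : 0 ≤ d' := Nat.cast_nonneg _
  set L : ℝ := (n : ℝ) * Real.log N with hL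
  have h4 : (N : ℝ) ^ n * (L / w - Real.log 2 - C1) ≤
      ∑ a : Fin n → Fin N, Real.log ((max (r B p X a) 1 : ℕ) : ℝ) := by
    have := mul_le_mul_of_nonneg_left hlog hq'.le
    push_cast at h1 h2 this ⊢
    nlinarith
  have h5 := mul_le_mul_of_nonneg_left h4 hd0
  have e : (N : ℝ) ^ n * (Real.log C2 + L) - d' * ((N : ℝ) ^ n * (L / w - Real.log 2 - C1)) =
      (N : ℝ) ^ n * (L / w + (Real.log C2 + d' * (Real.log 2 + C1))) := by
    rw [hd']
    field_simp
    ring
  push_cast at h3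
  rw [← e]
  push_cast at h5
  linarith

/-- The general form of the theorem. -/
theorem avg [IsDomain R] (h : Setup N D B p) {φ : R → ℝ} {c : ℝ}
    (h1 : ∀ x, D * Real.logb N (nrm B x) ≤ φ x)
    (h2 : ∀ x, φ x ≤ D * Real.logb N (nrm B x) + c) :
    ∃ C : ℝ, ∀ n : ℕ, |avgFin p φ N n - (n : ℝ) / 2| ≤ C := by
  obtain ⟨C, hC0, hC⟩ := sum_log_M_le h
  have hN1 := one_lt_N h
  have hN0 : (0 : ℝ) < N := by linarith
  have hlogN : 0 < Real.log N := Real.log_pos hN1
  have hD : (0 : ℝ) < D := by exact_mod_cast h.one_le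
  have hl2 : 0 ≤ Real.log 2 := Real.log_nonneg (by norm_num)
  refine ⟨(D * (C + (Real.log 2 + 9 ^ D))) / Real.log N + |c|, fun n => ?_⟩
  have hq : (0 : ℝ) < (N : ℝ) ^ n := by positivity
  have hlow := sum_log_M_ge h n
  have hup := hC n
  have e1 : ∑ a : Fin n → Fin N, (D : ℝ) * Real.logb N (M B p a) =
      D * (∑ a : Fin n → Fin N, Real.log (M B p a)) / Real.log N := by
    simp only [Real.logb]
    rw [← Finset.mul_sum, ← Finset.sum_div]
    ring
  have g1 : D * (∑ a : Fin n → Fin N, Real.log (M B p a)) / Real.log N ≤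
      ∑ a : Fin n → Fin N, finComplexity p φ a := by
    rw [← e1]
    exact Finset.sum_le_sum fun a _ => finComplexity_ge h h1 a
  have g2 : ∑ a : Fin n → Fin N, finComplexity p φ a ≤
      D * (∑ a : Fin n → Fin N, Real.log (M B p a)) / Real.log N + (N : ℝ) ^ n * c := by
    have : ∑ a : Fin n → Fin N, finComplexity p φ a ≤
        ∑ a : Fin n → Fin N, ((D : ℝ) * Real.logb N (M B p a) + c) :=
      Finset.sum_le_sum fun a _ => finComplexity_le h h1 h2 a
    rw [Finset.sum_add_distrib, e1, Finset.sum_const, Finset.card_univ, Fintype.card_fun,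
      Fintype.card_fin, Fintype.card_fin, nsmul_eq_mul] at this
    push_cast at this
    exact this
  have hc := le_abs_self c
  have hc0 := abs_nonneg c
  have hkey : ∀ t : ℝ, (D : ℝ) * ((N : ℝ) ^ n * ((n : ℝ) * Real.log N / (2 * D : ℕ) + t)) / Real.log N =
      (N : ℝ) ^ n * ((n : ℝ) / 2 + D * t / Real.log N) := by
    intro t
    push_cast
    field_simp
  have k1 : (N : ℝ) ^ n * ((n : ℝ) / 2 + D * (-(Real.log 2 + 9 ^ D)) / Real.log N) ≤
      ∑ a : Fin n → Fin N, finComplexity p φ a := by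
    refine le_trans ?_ g1
    rw [← hkey]
    apply div_le_div_of_nonneg_right _ hlogN.le
    apply mul_le_mul_of_nonneg_left _ hD.le
    refine le_trans (le_of_eq ?_) hlow
    ring
  have k2 : ∑ a : Fin n → Fin N, finComplexity p φ a ≤
      (N : ℝ) ^ n * ((n : ℝ) / 2 + D * C / Real.log N + c) := by
    refine g2.trans ?_
    have : D * (∑ a : Fin n → Fin N, Real.log (M B p a)) / Real.log N ≤
        (N : ℝ) ^ n * ((n : ℝ) / 2 + D * C / Real.log N) := by
      rw [← hkey]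
      apply div_le_div_of_nonneg_right _ hlogN.le
      exact mul_le_mul_of_nonneg_left hup hD.le
    linarith
  rw [avgFin, abs_le]
  have e3 : (D * (C + (Real.log 2 + 9 ^ D))) / Real.log N =
      D * C / Real.log N + D * (Real.log 2 + 9 ^ D) / Real.log N := by ring
  have e4 : (D : ℝ) * (-(Real.log 2 + 9 ^ D)) / Real.log N =
      -(D * (Real.log 2 + 9 ^ D) / Real.log N) := by ring
  have p1 : 0 ≤ D * C / Real.log N := by positivity
  have p2 : 0 ≤ D * (Real.log 2 + 9 ^ D) / Real.log N := by positivity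
  rw [e4] at k1
  constructor
  · have : (n : ℝ) / 2 + -(D * (Real.log 2 + 9 ^ D) / Real.log N) ≤
        (∑ a : Fin n → Fin N, finComplexity p φ a) / (N : ℝ) ^ n := by
      rw [le_div_iff₀ hq]; linarith
    rw [e3]
    linarith
  · have : (∑ a : Fin n → Fin N, finComplexity p φ a) / (N : ℝ) ^ n ≤
        (n : ℝ) / 2 + D * C / Real.log N + c := by
      rw [div_le_iff₀ hq]; linarith
    rw [e3]
    linarith

end Q224.PiAdic
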